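import Pool.Agent.J4H4.NG.Stm

set_option autoImplicit false

/-! # Project NG, (REPR): the representation by a Dirichlet series -/

namespace Pool.Agent.J4H19.NG

open Complex MeasureTheory Filter Topology Set
open Pool.Agent.J4H1.JP (Xi)
open Pool.Agent.J4H4.NG

noncomputable section

theorem Xi_eq (y : ℝ) : Xi (3 / 2 + I * (y : ℂ)) = gam (2 + I * y) * riemannZeta (2 + I * y) := by
  set s : ℂ := 2 + I * y with hs
  have hre : s.re = 2 := by simp [hs]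
  have h0 : s ≠ 0 := fun h => by rw [h] at hre; norm_num at hre
  have h1 : 1 - s ≠ 0 := fun h => by
    have h2 : s = 1 := (sub_eq_zero.1 h).symm
    rw [h2] at hre
    norm_num at hre
  have hG : Gammaℝ s ≠ 0 := Gammaℝ_ne_zero_of_re_pos (by rw [hre]; norm_num)
  rw [riemannZeta_def_of_ne_zero h0, completedRiemannZeta_eq]
  unfold Xi gam
  have e1 : (1 / 2 : ℂ) + (3 / 2 + I * y) = s := by rw [hs]; ring
  have e2 : (3 / 2 + I * y : ℂ) ^ 2 - 1 / 4 = s * (s - 1) := by rw [hs]; ring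
  rw [e1, e2]
  field_simp
  ring

theorem Xi_cont : Continuous Xi := by
  unfold Xi
  have h : Continuous completedRiemannZeta₀ := differentiable_completedZeta₀.continuous
  fun_prop

/-- `∑ 1/(n+1)²` -/
def Z2 : ℝ := ∑' n : ℕ, 1 / ((n : ℝ) + 1) ^ 2

theorem Z2_sum : Summable fun n : ℕ => 1 / ((n : ℝ) + 1) ^ 2 := by
  have h := (summable_nat_add_iff 1).2 (Real.summable_one_div_nat_pow.2 (by norm_num : 1 < 2))
  refine h.congr fun n => ?_
  push_cast
  rfl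

theorem Z2_nonneg : 0 ≤ Z2 := tsum_nonneg fun n => by positivity

theorem norm_term (n : ℕ) (y : ℝ) : ‖((n : ℂ) + 1) ^ (2 + I * (y : ℂ))‖ = ((n : ℝ) + 1) ^ 2 := by
  have h1 : ((n : ℂ) + 1) = (((n : ℝ) + 1 : ℝ) : ℂ) := by push_cast; rfl
  have h2 : (0 : ℝ) < (n : ℝ) + 1 := by positivity
  rw [h1, norm_cpow_eq_rpow_re_of_pos h2]
  have h3 : (2 + I * (y : ℂ)).re = ((2 : ℕ) : ℝ) := by simp
  rw [h3, Real.rpow_natCast]

theorem norm_zeta (y : ℝ) : ‖riemannZeta (2 + I * (y : ℂ))‖ ≤ Z2 := by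
  rw [zeta_eq_tsum_one_div_nat_add_one_cpow (by simp)]
  have h : ∀ n : ℕ, ‖1 / ((n : ℂ) + 1) ^ (2 + I * (y : ℂ))‖ = 1 / ((n : ℝ) + 1) ^ 2 := by
    intro n
    rw [norm_div, norm_term, norm_one]
  have hs : Summable fun n : ℕ => ‖1 / ((n : ℂ) + 1) ^ (2 + I * (y : ℂ))‖ := by
    simp_rw [h]
    exact Z2_sum
  refine (norm_tsum_le_tsum_norm hs).trans (le_of_eq ?_)
  simp_rw [h]
  rfl

theorem int_exp (a c : ℝ) (ha : 0 < a) :
    Integrable (fun u : ℝ => Real.exp (c * u - u ^ 2 / (4 * a))) := by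
  have hb : ((-(1 / (4 * a)) : ℝ) : ℂ).re < 0 := by
    rw [ofReal_re]
    have : 0 < 1 / (4 * a) := by positivity
    linarith
  have h := (integrable_cexp_quadratic' hb (c : ℂ) 0).norm
  refine h.congr (ae_of_all _ fun u => ?_)
  change ‖cexp _‖ = _
  rw [Complex.norm_exp]
  congr 1
  have : ((-(1 / (4 * a)) : ℝ) : ℂ) * (u : ℂ) ^ 2 + (c : ℂ) * u + 0
      = ((c * u - u ^ 2 / (4 * a) : ℝ) : ℂ) := by
    push_cast
    ring
  rw [this, ofReal_re]

/-- dominating function -/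
def Gd (a u : ℝ) : ℝ :=
  400 * (Real.exp (2 * u - u ^ 2 / (4 * a)) + Real.exp (-2 * u - u ^ 2 / (4 * a)))

theorem Gd_int (a : ℝ) (ha : 0 < a) : Integrable (Gd a) :=
  ((int_exp a 2 ha).add (int_exp a (-2) ha)).const_mul 400

theorem Gd_nonneg (a u : ℝ) : 0 ≤ Gd a u := by unfold Gd; positivity

theorem dom (a u : ℝ) :
    (1 + |u|) ^ 5 * Real.exp (Real.pi * |u| / 4) * Real.exp (-u ^ 2 / (4 * a)) ≤ Gd a u := by
  have hu : 0 ≤ |u| := abs_nonneg u
  have h1 : (1 + |u|) ^ 5 ≤ 120 * Real.exp (1 + |u|) := by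
    have h := Real.pow_div_factorial_le_exp (x := 1 + |u|) (by positivity) 5
    have h2 : ((Nat.factorial 5 : ℕ) : ℝ) = 120 := by norm_num [Nat.factorial]
    rw [h2, div_le_iff₀ (by norm_num)] at h
    linarith
  have h2 : Real.exp (Real.pi * |u| / 4) ≤ Real.exp |u| := by
    rw [Real.exp_le_exp]
    have := Real.pi_le_four
    nlinarith
  have h3 : Real.exp 1 ≤ 3 := by
    have := Real.exp_one_lt_d9
    linarith
  have h4 : (1 + |u|) ^ 5 * Real.exp (Real.pi * |u| / 4) ≤ 400 * Real.exp (2 * |u|) := by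
    calc (1 + |u|) ^ 5 * Real.exp (Real.pi * |u| / 4)
        ≤ (120 * Real.exp (1 + |u|)) * Real.exp |u| := by gcongr
      _ = 120 * Real.exp 1 * Real.exp (2 * |u|) := by
        rw [mul_assoc, ← Real.exp_add, mul_assoc, ← Real.exp_add]
        congr 2
        ring
      _ ≤ 400 * Real.exp (2 * |u|) := by
        have := Real.exp_pos (2 * |u|)
        nlinarith
  have h5 : Real.exp (2 * |u|) ≤ Real.exp (2 * u) + Real.exp (-2 * u) := by
    rcases abs_cases u with ⟨h, _⟩ | ⟨h, _⟩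
    · rw [h]
      have := Real.exp_pos (-2 * u)
      linarith
    · rw [h]
      have e : 2 * -u = -2 * u := by ring
      rw [e]
      have := Real.exp_pos (2 * u)
      linarith
  calc (1 + |u|) ^ 5 * Real.exp (Real.pi * |u| / 4) * Real.exp (-u ^ 2 / (4 * a))
      ≤ (400 * Real.exp (2 * |u|)) * Real.exp (-u ^ 2 / (4 * a)) := by gcongr
    _ ≤ (400 * (Real.exp (2 * u) + Real.exp (-2 * u))) * Real.exp (-u ^ 2 / (4 * a)) := by gcongr
    _ = Gd a u := by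
      unfold Gd
      rw [mul_assoc, add_mul, ← Real.exp_add, ← Real.exp_add]
      congr 3 <;> ring

/-- the Gaussian factor -/
def Eg (a η u : ℝ) : ℂ := cexp (-(u : ℂ) ^ 2 / (4 * a) - I * u * η / (2 * a))

theorem norm_Eg (a η u : ℝ) : ‖Eg a η u‖ = Real.exp (-u ^ 2 / (4 * a)) := by
  unfold Eg
  rw [Complex.norm_exp]
  congr 1
  have h : -(u : ℂ) ^ 2 / (4 * a) - I * u * η / (2 * a)
      = ((-u ^ 2 / (4 * a) : ℝ) : ℂ) - ((u * η / (2 * a) : ℝ) : ℂ) * I := by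
    push_cast
    ring
  rw [h, sub_re, ofReal_re, re_ofReal_mul, I_re, mul_zero, sub_zero]

theorem norm_ell (v u : ℝ) : ‖cexp (I * u * ell v)‖ = Real.exp (-(Real.pi / 4) * u) := by
  rw [Complex.norm_exp]
  congr 1
  have h : I * (u : ℂ) * ell v = ((-(Real.pi / 4) * u : ℝ) : ℂ)
      + ((u * (Real.log (v / (2 * Real.pi)) / 2) : ℝ) : ℂ) * I := by
    unfold ell
    push_cast
    linear_combination (↑u * (↑Real.pi / 4)) * Complex.I_mul_I
  rw [h]
  simp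

/-- the main part of the integrand -/
def Mm (a η v u : ℝ) : ℂ :=
  cexp (I * u * ell v) * riemannZeta (2 + I * ((v + u : ℝ) : ℂ)) * Eg a η u

theorem zeta_cont (v : ℝ) : Continuous fun u : ℝ => riemannZeta (2 + I * ((v + u : ℝ) : ℂ)) := by
  rw [continuous_iff_continuousAt]
  intro u
  have h1 : ContinuousAt riemannZeta (2 + I * ((v + u : ℝ) : ℂ)) := by
    refine (differentiableAt_riemannZeta fun h => ?_).continuousAt
    have := congrArg Complex.re h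
    simp at this
  have h2 : ContinuousAt (fun u : ℝ => (2 + I * ((v + u : ℝ) : ℂ) : ℂ)) u := by fun_prop
  exact ContinuousAt.comp (f := fun u : ℝ => (2 + I * ((v + u : ℝ) : ℂ) : ℂ)) h1 h2

theorem Mm_cont (a η v : ℝ) : Continuous (Mm a η v) := by
  unfold Mm Eg
  have h := zeta_cont v
  fun_prop

theorem Mm_int (a η v : ℝ) (ha : 0 < a) : Integrable (Mm a η v) := by
  refine Integrable.mono' ((int_exp a (-(Real.pi / 4)) ha).const_mul Z2)
    (Mm_cont a η v).aestronglyMeasurable (ae_of_all _ fun u => ?_)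
  unfold Mm
  rw [norm_mul, norm_mul, norm_ell, norm_Eg]
  have h := norm_zeta (v + u)
  have e : Real.exp (-(Real.pi / 4) * u - u ^ 2 / (4 * a))
      = Real.exp (-(Real.pi / 4) * u) * Real.exp (-u ^ 2 / (4 * a)) := by
    rw [← Real.exp_add]
    congr 1
    ring
  rw [e]
  have h1 := Real.exp_pos (-(Real.pi / 4) * u)
  have h2 := Real.exp_pos (-u ^ 2 / (4 * a))
  calc Real.exp (-(Real.pi / 4) * u) * ‖riemannZeta (2 + I * ((v + u : ℝ) : ℂ))‖
        * Real.exp (-u ^ 2 / (4 * a))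
      ≤ Real.exp (-(Real.pi / 4) * u) * Z2 * Real.exp (-u ^ 2 / (4 * a)) := by gcongr
    _ = _ := by ring

/-- the terms -/
def Ft (a η v : ℝ) (n : ℕ) (u : ℝ) : ℂ :=
  ((n : ℂ) + 1) ^ (-(2 : ℂ) - I * v) * cexp (((-(1 / (4 * a)) : ℝ) : ℂ) * (u : ℂ) ^ 2
    + (I * (ell v - ((η / (2 * a) : ℝ) : ℂ) - (Real.log ((n : ℝ) + 1) : ℂ))) * u + 0)

theorem clog_eq (n : ℕ) : Complex.log ((n : ℂ) + 1) = (Real.log ((n : ℝ) + 1) : ℂ) := by
  have h : ((n : ℂ) + 1) = (((n : ℝ) + 1 : ℝ) : ℂ) := by push_cast; rfl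
  rw [h, ← Complex.ofReal_log (by positivity)]

theorem Mm_eq (a η v u : ℝ) : Mm a η v u = ∑' n : ℕ, Ft a η v n u := by
  unfold Mm
  rw [zeta_eq_tsum_one_div_nat_add_one_cpow (by simp), ← tsum_mul_left, ← tsum_mul_right]
  refine tsum_congr fun n => ?_
  have hn : ((n : ℂ) + 1) ≠ 0 := by exact_mod_cast n.succ_ne_zero
  unfold Ft Eg
  rw [cpow_def_of_ne_zero hn, cpow_def_of_ne_zero hn, clog_eq, one_div, ← Complex.exp_neg,
    ← Complex.exp_add, ← Complex.exp_add, ← Complex.exp_add]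
  congr 1
  push_cast
  ring

theorem Ft_int (a η v : ℝ) (ha : 0 < a) (n : ℕ) : Integrable (Ft a η v n) := by
  have hb : ((-(1 / (4 * a)) : ℝ) : ℂ).re < 0 := by
    rw [ofReal_re]
    have : 0 < 1 / (4 * a) := by positivity
    linarith
  exact (integrable_cexp_quadratic' hb _ 0).const_mul _

theorem norm_Ft (a η v : ℝ) (n : ℕ) (u : ℝ) :
    ‖Ft a η v n u‖ = 1 / ((n : ℝ) + 1) ^ 2 * Real.exp (-(Real.pi / 4) * u - u ^ 2 / (4 * a)) := by
  have h0 : (0 : ℝ) < (n : ℝ) + 1 := by positivity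
  unfold Ft
  rw [norm_mul]
  congr 1
  · have h1 : ((n : ℂ) + 1) = (((n : ℝ) + 1 : ℝ) : ℂ) := by push_cast; rfl
    rw [h1, norm_cpow_eq_rpow_re_of_pos h0]
    have h3 : (-(2 : ℂ) - I * (v : ℂ)).re = -((2 : ℕ) : ℝ) := by simp
    rw [h3, Real.rpow_neg h0.le, Real.rpow_natCast, one_div]
  · rw [Complex.norm_exp]
    congr 1
    have h : ((-(1 / (4 * a)) : ℝ) : ℂ) * (u : ℂ) ^ 2
        + (I * (ell v - ((η / (2 * a) : ℝ) : ℂ) - (Real.log ((n : ℝ) + 1) : ℂ))) * u + 0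
        = ((-(Real.pi / 4) * u - u ^ 2 / (4 * a) : ℝ) : ℂ)
          + ((u * (Real.log (v / (2 * Real.pi)) / 2 - η / (2 * a) - Real.log ((n : ℝ) + 1)) : ℝ) : ℂ)
            * I := by
      unfold ell
      push_cast
      linear_combination (↑u * (↑Real.pi / 4)) * Complex.I_mul_I
    rw [h, add_re, ofReal_re, re_ofReal_mul, I_re, mul_zero, add_zero]

theorem Ft_integral (a η v : ℝ) (ha : 0 < a) (n : ℕ) :
    ∫ u : ℝ, Ft a η v n u = ((Real.sqrt (4 * Real.pi * a) : ℝ) : ℂ) *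
      (((n : ℂ) + 1) ^ (-(2 : ℂ) - I * v) * cexp (-(a : ℂ) * ((Real.log ((n : ℝ) + 1) : ℂ)
        - ((Real.log (v / (2 * Real.pi)) / 2 - η / (2 * a) : ℝ) : ℂ) - I * (Real.pi / 4)) ^ 2)) := by
  have hb : ((-(1 / (4 * a)) : ℝ) : ℂ).re < 0 := by
    rw [ofReal_re]
    have : 0 < 1 / (4 * a) := by positivity
    linarith
  have ha' : (a : ℂ) ≠ 0 := by exact_mod_cast ha.ne'
  unfold Ft
  rw [integral_const_mul, integral_cexp_quadratic hb]
  have h1 : (Real.pi / -((-(1 / (4 * a)) : ℝ) : ℂ)) ^ (1 / 2 : ℂ)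
      = ((Real.sqrt (4 * Real.pi * a) : ℝ) : ℂ) := by
    have e : ((Real.pi : ℂ) / -((-(1 / (4 * a)) : ℝ) : ℂ)) = ((4 * Real.pi * a : ℝ) : ℂ) := by
      push_cast
      field_simp
    rw [e, Real.sqrt_eq_rpow, Complex.ofReal_cpow (by positivity)]
    norm_num
  rw [h1]
  have h2 : 0 - (I * (ell v - ((η / (2 * a) : ℝ) : ℂ) - (Real.log ((n : ℝ) + 1) : ℂ))) ^ 2
      / (4 * ((-(1 / (4 * a)) : ℝ) : ℂ)) = -(a : ℂ) * ((Real.log ((n : ℝ) + 1) : ℂ)
        - ((Real.log (v / (2 * Real.pi)) / 2 - η / (2 * a) : ℝ) : ℂ) - I * (Real.pi / 4)) ^ 2 := by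
    unfold ell
    rw [mul_pow, Complex.I_sq]
    push_cast
    field_simp
    ring
  rw [h2]
  ring

theorem Mm_integral (a η v : ℝ) (ha : 0 < a) :
    ∫ u : ℝ, Mm a η v u = ((Real.sqrt (4 * Real.pi * a) : ℝ) : ℂ) *
      DD a (Real.log (v / (2 * Real.pi)) / 2 - η / (2 * a)) v := by
  have hs : Summable fun n : ℕ => ∫ u : ℝ, ‖Ft a η v n u‖ := by
    have h : ∀ n : ℕ, ∫ u : ℝ, ‖Ft a η v n u‖
        = 1 / ((n : ℝ) + 1) ^ 2 * ∫ u : ℝ, Real.exp (-(Real.pi / 4) * u - u ^ 2 / (4 * a)) := by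
      intro n
      rw [← integral_const_mul]
      exact integral_congr_ae (ae_of_all _ fun u => norm_Ft a η v n u)
    simp_rw [h]
    exact Z2_sum.mul_right _
  have h := hasSum_integral_of_summable_integral_norm (Ft_int a η v ha) hs
  have h1 : ∫ u : ℝ, Mm a η v u = ∫ u : ℝ, ∑' n : ℕ, Ft a η v n u :=
    integral_congr_ae (ae_of_all _ fun u => Mm_eq a η v u)
  rw [h1, ← h.tsum_eq]
  simp_rw [Ft_integral a η v ha]
  rw [tsum_mul_left]
  rfl

/-- (REPR) -/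
theorem t_REPR : S_SH → S_LOC → S_REPR := by
  intro hSH hLOC a ha
  obtain ⟨C, V₀, hC, hV, hloc⟩ := hLOC
  set K : ℝ := ∫ u : ℝ, Gd a u with hK
  have hK0 : 0 ≤ K := integral_nonneg fun u => Gd_nonneg a u
  have hZ := Z2_nonneg
  have hsq : 0 < Real.sqrt (4 * Real.pi * a) := Real.sqrt_pos.2 (by positivity)
  refine ⟨C * Z2 * K / Real.sqrt (4 * Real.pi * a) + 1, V₀, by positivity, hV, fun v hv η => ?_⟩
  have hv0 : 0 < v := by linarith
  obtain ⟨hA, hl⟩ := hloc v hv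
  set A : ℂ := gam (2 + I * v) with hAd
  set D : ℝ → ℂ := fun u => Xi (3 / 2 + I * ((v + u : ℝ) : ℂ)) * Eg a η u - A * Mm a η v u with hD
  have hbound : ∀ u : ℝ, ‖D u‖ ≤ ‖A‖ * (C / v) * Z2 * Gd a u := by
    intro u
    have e : D u = A * (gam (2 + I * ((v + u : ℝ) : ℂ)) / A - cexp (I * u * ell v))
        * riemannZeta (2 + I * ((v + u : ℝ) : ℂ)) * Eg a η u := by
      rw [hD]
      simp only [Mm]
      rw [Xi_eq]
      field_simp
    rw [e, norm_mul, norm_mul, norm_mul, norm_Eg]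
    have h1 := hl u
    have h2 := norm_zeta (v + u)
    have h3 := dom a u
    have h4 := Real.exp_pos (-u ^ 2 / (4 * a))
    calc ‖A‖ * ‖gam (2 + I * ((v + u : ℝ) : ℂ)) / A - cexp (I * u * ell v)‖
          * ‖riemannZeta (2 + I * ((v + u : ℝ) : ℂ))‖ * Real.exp (-u ^ 2 / (4 * a))
        ≤ ‖A‖ * (C / v * (1 + |u|) ^ 5 * Real.exp (Real.pi * |u| / 4)) * Z2
          * Real.exp (-u ^ 2 / (4 * a)) := by gcongr
      _ = ‖A‖ * (C / v) * Z2 * ((1 + |u|) ^ 5 * Real.exp (Real.pi * |u| / 4)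
          * Real.exp (-u ^ 2 / (4 * a))) := by ring
      _ ≤ ‖A‖ * (C / v) * Z2 * Gd a u := by gcongr
  have hDc : Continuous D := by
    rw [hD]
    have h1 := Xi_cont
    have h2 := Mm_cont a η v
    unfold Eg
    fun_prop
  have hDi : Integrable D := Integrable.mono' ((Gd_int a ha).const_mul (‖A‖ * (C / v) * Z2))
    hDc.aestronglyMeasurable (ae_of_all _ hbound)
  have hint : ∫ u : ℝ, Xi (3 / 2 + I * ((v + u : ℝ) : ℂ))
        * cexp (-(u : ℂ) ^ 2 / (4 * a) - I * u * η / (2 * a))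
      = A * (∫ u : ℝ, Mm a η v u) + ∫ u : ℝ, D u := by
    rw [← integral_const_mul, ← integral_add ((Mm_int a η v ha).const_mul A) hDi]
    refine integral_congr_ae (ae_of_all _ fun u => ?_)
    simp only [hD, Eg]
    ring
  have hDn : ‖∫ u : ℝ, D u‖ ≤ ‖A‖ * (C / v) * Z2 * K := by
    rw [hK, ← integral_const_mul]
    exact norm_integral_le_of_norm_le ((Gd_int a ha).const_mul _) (ae_of_all _ hbound)
  rw [hSH a ha η v, hint, Mm_integral a η v ha]
  have hsqc : ((Real.sqrt (4 * Real.pi * a) : ℝ) : ℂ) ≠ 0 := by exact_mod_cast hsq.ne'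
  have e : ((Real.exp (η ^ 2 / (4 * a)) / Real.sqrt (4 * Real.pi * a) : ℝ) : ℂ)
      * (A * (((Real.sqrt (4 * Real.pi * a) : ℝ) : ℂ) *
        DD a (Real.log (v / (2 * Real.pi)) / 2 - η / (2 * a)) v) + ∫ u : ℝ, D u)
      - A * ((Real.exp (η ^ 2 / (4 * a)) : ℝ) : ℂ) *
        DD a (Real.log (v / (2 * Real.pi)) / 2 - η / (2 * a)) v
      = ((Real.exp (η ^ 2 / (4 * a)) / Real.sqrt (4 * Real.pi * a) : ℝ) : ℂ) * ∫ u : ℝ, D u := by
    push_cast
    field_simp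
    ring
  rw [e, norm_mul, Complex.norm_real, Real.norm_of_nonneg (by positivity)]
  have h5 : 0 ≤ Real.exp (η ^ 2 / (4 * a)) * ‖A‖ / v := by positivity
  calc Real.exp (η ^ 2 / (4 * a)) / Real.sqrt (4 * Real.pi * a) * ‖∫ u : ℝ, D u‖
      ≤ Real.exp (η ^ 2 / (4 * a)) / Real.sqrt (4 * Real.pi * a) * (‖A‖ * (C / v) * Z2 * K) := by
        gcongr
    _ = C * Z2 * K / Real.sqrt (4 * Real.pi * a) * (Real.exp (η ^ 2 / (4 * a)) * ‖A‖ / v) := by
        ring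
    _ ≤ (C * Z2 * K / Real.sqrt (4 * Real.pi * a) + 1)
          * (Real.exp (η ^ 2 / (4 * a)) * ‖A‖ / v) := by nlinarith
    _ = (C * Z2 * K / Real.sqrt (4 * Real.pi * a) + 1) / v * Real.exp (η ^ 2 / (4 * a)) * ‖A‖ := by
        ring

end

end Pool.Agent.J4H19.NG
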